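import Pool.Agent.helper17.CH.SpecQ
import Pool.Agent.helper22.PD.Mertens2

/-!
# Project CH, row MER: Mertens, upper bound
-/

set_option autoImplicit false

namespace Pool.Agent.CH

open Finset

private theorem MER_nat : ∃ c : ℝ, 0 < c ∧ ∀ k n : ℕ, 2 ≤ k → k ≤ n →
    ∑ p ∈ (Ioc k n).filter Nat.Prime, 1 / (p : ℝ) ≤
      Real.log (Real.log n) - Real.log (Real.log k) + c / Real.log k := by
  obtain ⟨C, hC, hA⟩ := Pool.Agent.helper22.PD.lower_A
  have hl4 : 0 < Real.log 4 := Real.log_pos (by norm_num)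
  refine ⟨Real.log 4 + C, by linarith, ?_⟩
  intro k n hk hkn
  have h := Pool.Agent.Lib.PrimeSums.sum_le_loglog (fun p => 1 / (p : ℝ)) (Real.log 4) C k n hk hkn
    (fun m hm => by
      refine le_trans (le_of_eq (sum_congr rfl fun p _ => ?_))
        (Pool.Agent.Lib.PrimeSums.sum_log_div_le m (by omega))
      ring)
    (hA k hk)
  have hsum : ∑ p ∈ (Ioc k n).filter Nat.Prime, 1 / (p : ℝ)
      = ∑ p ∈ Nat.primesLE n, 1 / (p : ℝ) - ∑ p ∈ Nat.primesLE k, 1 / (p : ℝ) := by
    rw [eq_sub_iff_add_eq, ← sum_union]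
    · congr 1
      ext p
      rw [mem_union, mem_filter, mem_Ioc, Nat.mem_primesLE, Nat.mem_primesLE]
      constructor
      · rintro (⟨⟨h1, h2⟩, h3⟩ | ⟨h1, h2⟩)
        · exact ⟨h2, h3⟩
        · exact ⟨h1.trans hkn, h2⟩
      · rintro ⟨h1, h2⟩
        rcases Nat.lt_or_ge k p with h3 | h3
        · exact Or.inl ⟨⟨h3, h1⟩, h2⟩
        · exact Or.inr ⟨h3, h2⟩
    · rw [Finset.disjoint_left]
      intro p hp hp'
      rw [mem_filter, mem_Ioc] at hp
      rw [Nat.mem_primesLE] at hp'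
      omega
  rw [hsum]
  exact h

theorem MER : MER_stmt := by
  obtain ⟨c, hc, h⟩ := MER_nat
  refine ⟨1 + c, by linarith, ?_⟩
  intro a b ha hab
  have hla : 0 < Real.log a := Real.log_pos (by linarith)
  have hlb : 0 < Real.log b := Real.log_pos (by linarith)
  have hlab : Real.log a ≤ Real.log b := Real.log_le_log (by linarith) hab
  have hR : 0 ≤ Real.log (Real.log b / Real.log a) := by
    apply Real.log_nonneg
    rw [le_div_iff₀ hla]
    linarith
  have hR' : Real.log (Real.log b / Real.log a) = Real.log (Real.log b) - Real.log (Real.log a) :=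
    Real.log_div hlb.ne' hla.ne'
  set k : ℕ := ⌈a⌉₊ with hk
  set n : ℕ := ⌊b⌋₊ with hn
  have hk2 : 2 ≤ k := by
    have : (2 : ℝ) ≤ (k : ℝ) := ha.trans (Nat.le_ceil a)
    exact_mod_cast this
  have hak : a ≤ (k : ℝ) := Nat.le_ceil a
  have hsub : (Icc 1 n).filter (fun p : ℕ => p.Prime ∧ a ≤ (p : ℝ)) ⊆
      insert k ((Ioc k n).filter Nat.Prime) := by
    intro p hp
    rw [mem_filter, mem_Icc] at hp
    obtain ⟨⟨h1, h2⟩, h3, h4⟩ := hp
    have h5 : k ≤ p := Nat.ceil_le.mpr h4
    rw [mem_insert, mem_filter, mem_Ioc]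
    rcases Nat.lt_or_ge k p with h6 | h6
    · exact Or.inr ⟨⟨h6, h2⟩, h3⟩
    · exact Or.inl (le_antisymm h6 h5)
  rcases Nat.lt_or_ge n k with hnk | hnk
  · have h0 : (Icc 1 n).filter (fun p : ℕ => p.Prime ∧ a ≤ (p : ℝ)) = ∅ := by
      rw [Finset.filter_eq_empty_iff]
      rintro p hp ⟨-, h4⟩
      rw [mem_Icc] at hp
      have h5 : k ≤ p := Nat.ceil_le.mpr h4
      omega
    rw [h0, sum_empty]
    have : 0 ≤ (1 + c) / Real.log a := by positivity
    linarith
  · have h1 := h k n hk2 hnk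
    have hkR : (2 : ℝ) ≤ (k : ℝ) := by exact_mod_cast hk2
    have hlk : 0 < Real.log k := Real.log_pos (by linarith)
    have hlak : Real.log a ≤ Real.log k := Real.log_le_log (by linarith) hak
    have hnR : (2 : ℝ) ≤ (n : ℝ) := by exact_mod_cast hk2.trans hnk
    have hln : 0 < Real.log n := Real.log_pos (by linarith)
    have hnb : (n : ℝ) ≤ b := Nat.floor_le (by linarith)
    have hlnb : Real.log n ≤ Real.log b := Real.log_le_log (by linarith) hnb
    have h2 : Real.log (Real.log n) ≤ Real.log (Real.log b) := Real.log_le_log hln hlnb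
    have h3 : Real.log (Real.log a) ≤ Real.log (Real.log k) := Real.log_le_log hla hlak
    have h4 : c / Real.log k ≤ c / Real.log a := by gcongr
    have h5 : 1 / (k : ℝ) ≤ 1 / Real.log a := by
      apply one_div_le_one_div_of_le hla
      have := Real.log_le_sub_one_of_pos (show 0 < a by linarith)
      linarith
    have h6 : ∑ p ∈ (Icc 1 n).filter (fun p : ℕ => p.Prime ∧ a ≤ (p : ℝ)), 1 / (p : ℝ) ≤
        1 / (k : ℝ) + ∑ p ∈ (Ioc k n).filter Nat.Prime, 1 / (p : ℝ) := by
      refine (sum_le_sum_of_subset_of_nonneg hsub fun p _ _ => by positivity).trans ?_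
      rw [sum_insert (by simp)]
    have h7 : (1 + c) / Real.log a = 1 / Real.log a + c / Real.log a := add_div _ _ _
    rw [hR', h7]
    linarith

end Pool.Agent.CH
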